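import Pool.Agent.U959.OO.Fin

/-!
# KLS (Cheeger form) for symmetric Orlicz balls cut by order cones

Q1, in the form of the inequality for sets `A` of measure one half, with an absolute constant, for all
bodies

  `K = {x ∈ ℝⁿ | ∑ V(x_i) ≤ E, x_i ≤ x_j whenever i ≤_P j}`

where `V : ℝ → [0, ∞]` is an arbitrary convex lower semicontinuous function which is symmetric about
some point, `E` an arbitrary level and `P` an arbitrary partial order on the coordinates. Examples: the
unit balls of `ℓ_p^n`, `1 ≤ p ≤ ∞`, and of all Orlicz norms, intersected with arbitrary order cones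
(cones of `P`-partitions, for instance Weyl chambers of type `A`). The constant depends neither on `V`,
`E` and `n` nor on the order. These bodies have no symmetries in general, and their covariance
matrices may be very degenerate (for a Weyl chamber most eigenvalues tend to zero). For `V = 0` on
`[-1, 1]` and `∞` outside they are the order polytopes (`OrderPolytopes`); for the trivial order they
are special cases of `OrliczBalls` (both in the starting files).

Method. Let `V` be `C¹` and normalised as in `OrliczBalls`: `f = exp(-V)` is a probability density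
with mean zero and variance one, and `s = E` maximises `exp(-s) |{S ≤ s}|`, `S(x) = ∑ V(x_i)`.
(1) For `n` independent variables with density `f` conditioned on the order, Poincare's inequality
holds with constant `48`, whatever the order is (`MP_6d896a_gt.OrderConditioned` of this team:
exchange process on lattice placements with variable rates).
(2) Transference without loss from the conditioned product measure `ν_P` to the uniform measure on
`K`: for `u ≥ 0` on the cone let `W(x)` be the mean of `u(x'_{π(1)}, …, x'_{π(n)})` over the linear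
extensions `π` of `P`, `x'` the monotone rearrangement of `x`. `W` is symmetric, has the Lipschitz
constant of `u` because rearrangement is a contraction, and its mean for every symmetric measure is the
mean of `u` for the measure conditioned on the cone. So the inequality of the starting files for
the product measure (`R476.OR`: the mean of `W` over `{S ≤ E}` is at most
`C ((E_ρ W)^{1/2} + sup ‖∇ W‖)` if `E_ρ W ≤ 1`) may be applied to `W`. With `u = (v - E v)²` this gives
the concentration of Lipschitz functions `v` on `K`, on a constant scale.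
(3) The sum of the coordinates has the same variance on `K` and on the whole Orlicz ball, at least
`c n` (two-dimensional marginal `(∑ x_i, s)`; this is where the symmetry of `V` is used). So the
covariance matrix of `K` has norm at least `c`. (4) Approximation of general `V` and `E`. (5) From
concentration to isoperimetry for sets of measure one half: E. Milman's theorem in the form of
the starting files (`Y665.FF.milb`, `Y429.RG.minkm`), and halfspaces by `Y211.FF.half`.
-/

set_option autoImplicit false

namespace Pool.Agent.Results.MP_8d00da_gt.OrderedBalls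

open MeasureTheory Set
open scoped ENNReal InnerProductSpace

/-- Euclidean space of dimension `n` -/
abbrev Euc (n : ℕ) : Type := EuclideanSpace ℝ (Fin n)

/-- convex lower semicontinuous functions `V : ℝ → [0, ∞]` -/
structure ConvexLSC (V : ℝ → ℝ≥0∞) : Prop where
  lsc : LowerSemicontinuous V
  conv : ∀ x y t : ℝ, 0 < t → t < 1 →
    V ((1 - t) * x + t * y) ≤ ENNReal.ofReal (1 - t) * V x + ENNReal.ofReal t * V y

/-- the sublevel set `{x ∈ ℝⁿ | ∑ V(x_i) ≤ E}` -/
def ball (n : ℕ) (V : ℝ → ℝ≥0∞) (E : ℝ≥0∞) : Set (Euc n) := {x | ∑ i, V (x i) ≤ E}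

/-- the cone `{x | x_i ≤ x_j if R i j}` -/
def orderCone {n : ℕ} (R : Fin n → Fin n → Prop) : Set (Euc n) := {x | ∀ i j, R i j → x i ≤ x j}

/-- convex bodies -/
structure Body {n : ℕ} (K : Set (Euc n)) : Prop where
  comp : IsCompact K
  conv : Convex ℝ K
  int : (interior K).Nonempty

/-- Minkowski (exterior) boundary measure `μ⁺(A)` -/
noncomputable def bdry {n : ℕ} (μ : Measure (Euc n)) (A : Set (Euc n)) : ℝ≥0∞ :=
  Filter.liminf (fun ε : ℝ => (μ (Metric.thickening ε A) - μ A) / ENNReal.ofReal ε)
    (nhdsWithin 0 (Set.Ioi 0))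

/-- the halfspace `⟪u, x⟫ ≤ b` -/
def halfspace {n : ℕ} (u : Euc n) (b : ℝ) : Set (Euc n) := {x | inner ℝ u x ≤ b}

/-- the uniform probability measure on `K` -/
noncomputable def unif {n : ℕ} (K : Set (Euc n)) : Measure (Euc n) :=
  (volume K)⁻¹ • volume.restrict K

/-- the inequality of Kannan, Lovasz and Simonovits with constant `c` for the uniform measure `μ` on
`K` and sets of measure one half: if `t min(μ H, 1 - μ H) ≤ μ⁺(H)` for all halfspaces `H` then
`c t min(μ A, 1 - μ A) ≤ μ⁺(A)` for all measurable `A` with `μ A = 1/2` -/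
def KLSHalf {n : ℕ} (c : ℝ) (K : Set (Euc n)) : Prop :=
  ∀ t : ℝ≥0∞, (∀ (u : Euc n) (b : ℝ), u ≠ 0 →
      t * min (unif K (halfspace u b)) (1 - unif K (halfspace u b)) ≤
        bdry (unif K) (halfspace u b)) →
    ∀ A : Set (Euc n), MeasurableSet A → unif K A = 1 / 2 →
      ENNReal.ofReal c * t * min (unif K A) (1 - unif K A) ≤ bdry (unif K) A

/-- **KLS (Cheeger form) for symmetric Orlicz balls cut by order cones.** There is an absolute constant
`c > 0` such that for all `n ≥ 1`, all convex lower semicontinuous functions `V : ℝ → [0, ∞]` which are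
symmetric about some point `z`, all levels `E` for which `{x ∈ ℝⁿ | ∑ V(x_i) ≤ E}` is bounded and has
nonempty interior, and all partial orders `R` on the coordinates (reflexive or strict: only
antisymmetry and transitivity are assumed), the set
`K = {x | ∑ V(x_i) ≤ E, x_i ≤ x_j if R i j}` is a convex body and satisfies the inequality of
Kannan, Lovasz and Simonovits with constant `c` for all sets of measure one half. -/
theorem result : ∃ c : ℝ, 0 < c ∧ ∀ (n : ℕ) (V : ℝ → ℝ≥0∞) (z : ℝ) (E : ℝ≥0∞)
    (R : Fin n → Fin n → Prop), 1 ≤ n → ConvexLSC V → (∀ t, V (2 * z - t) = V t) →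
    Bornology.IsBounded (ball n V E) → (interior (ball n V E)).Nonempty →
    (∀ a b, R a b → R b a → a = b) → (∀ a b c, R a b → R b c → R a c) →
    Body (ball n V E ∩ orderCone R) ∧ KLSHalf c (ball n V E ∩ orderCone R) := by
  obtain ⟨c, hc, H⟩ := Pool.Agent.U959.OO.fin
  refine ⟨c, hc, fun n V z E R hn hV hz hb hi hanti htr => ?_⟩
  obtain ⟨h1, h2, h3, h4⟩ := H n V z E R hn ⟨hV.lsc, hV.conv⟩ hz hb hi hanti htr
  refine ⟨⟨h1, h2, h3⟩, fun t ht A _ hA => ?_⟩
  have key := h4 (unif (ball n V E ∩ orderCone R)) rfl t ht A hA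
  have hp : min (unif (ball n V E ∩ orderCone R) A) (1 - unif (ball n V E ∩ orderCone R) A) ≤ 1 := by
    refine (min_le_left _ _).trans ?_
    rw [hA]
    exact ENNReal.half_le_self
  calc ENNReal.ofReal c * t * min (unif (ball n V E ∩ orderCone R) A)
        (1 - unif (ball n V E ∩ orderCone R) A)
      ≤ ENNReal.ofReal c * t * 1 := mul_le_mul_right hp _
    _ = ENNReal.ofReal c * t := mul_one _
    _ ≤ _ := key

/-- The case of the unit balls of `ℓ_p^n`: for all `n ≥ 1`, all real `p ≥ 1` and all partial orders the
body `{x | ∑ |x_i|^p ≤ 1, x_i ≤ x_j if R i j}` satisfies the inequality with an absolute constant. -/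
theorem lp : ∃ c : ℝ, 0 < c ∧ ∀ (n : ℕ) (p : ℝ) (R : Fin n → Fin n → Prop), 1 ≤ n → 1 ≤ p →
    (∀ a b, R a b → R b a → a = b) → (∀ a b c, R a b → R b c → R a c) →
    KLSHalf c ({x : Euc n | ∑ i, |x i| ^ p ≤ 1} ∩ orderCone R) := by
  obtain ⟨c, hc, H⟩ := result
  refine ⟨c, hc, fun n p R hn hp hanti htr => ?_⟩
  have hp0 : 0 < p := by linarith
  obtain ⟨V, hV⟩ : ∃ V : ℝ → ℝ≥0∞, V = fun t => ENNReal.ofReal (|t| ^ p) := ⟨_, rfl⟩
  have hc1 : Continuous fun t : ℝ => |t| ^ p :=
    continuous_abs.rpow_const fun t => Or.inr hp0.le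
  have hlsc : ConvexLSC V := by
    refine ⟨?_, fun x y t h0 h1 => ?_⟩
    · rw [hV]
      exact (ENNReal.continuous_ofReal.comp hc1).lowerSemicontinuous
    · rw [hV]
      dsimp only
      rw [← ENNReal.ofReal_mul (by linarith), ← ENNReal.ofReal_mul h0.le,
        ← ENNReal.ofReal_add (mul_nonneg (by linarith) (by positivity)) (by positivity)]
      refine ENNReal.ofReal_le_ofReal ?_
      have h2 : |(1 - t) * x + t * y| ≤ (1 - t) * |x| + t * |y| := by
        refine (abs_add_le _ _).trans (le_of_eq ?_)
        rw [abs_mul, abs_mul, abs_of_pos h0, abs_of_pos (by linarith : 0 < 1 - t)]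
      refine (Real.rpow_le_rpow (abs_nonneg _) h2 hp0.le).trans ?_
      have h3 := (convexOn_rpow hp).2 (show |x| ∈ Ici (0 : ℝ) from abs_nonneg x)
        (show |y| ∈ Ici (0 : ℝ) from abs_nonneg y) (by linarith : (0 : ℝ) ≤ 1 - t) h0.le (by ring)
      simpa only [smul_eq_mul] using h3
  have hK : ball n V 1 = {x : Euc n | ∑ i, |x i| ^ p ≤ 1} := by
    ext x
    unfold ball
    rw [mem_ofPred_eq, mem_ofPred_eq, hV]
    dsimp only
    rw [← ENNReal.ofReal_sum_of_nonneg fun i _ => by positivity, ← ENNReal.ofReal_one,
      ENNReal.ofReal_le_ofReal_iff zero_le_one]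
  have hcS : Continuous fun x : Euc n => ∑ i, |x i| ^ p :=
    continuous_finsetSum _ fun i _ => hc1.comp (by fun_prop)
  have hb : Bornology.IsBounded (ball n V 1) := by
    rw [hK]
    refine (Metric.isBounded_closedBall (x := (0 : Euc n)) (r := n)).subset fun x hx => ?_
    rw [mem_closedBall_zero_iff, EuclideanSpace.norm_eq]
    have hx' : ∑ i, |x i| ^ p ≤ 1 := hx
    have h1 : ∀ i, ‖x i‖ ^ 2 ≤ 1 := by
      intro i
      have h2 : |x i| ^ p ≤ 1 := (Finset.single_le_sum (f := fun i => |x i| ^ p)
        (fun i _ => by positivity) (Finset.mem_univ i)).trans hx'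
      have h3 : |x i| ≤ 1 := by
        by_contra hcon
        rw [not_le] at hcon
        have := Real.one_lt_rpow hcon hp0
        linarith
      rw [Real.norm_eq_abs]
      exact pow_le_one₀ (abs_nonneg _) h3
    have h4 : ∑ i, ‖x i‖ ^ 2 ≤ (n : ℝ) ^ 2 := by
      refine (Finset.sum_le_sum fun i _ => h1 i).trans ?_
      simp only [Finset.sum_const, Finset.card_univ, Fintype.card_fin, nsmul_eq_mul, mul_one]
      have : (1 : ℝ) ≤ n := by exact_mod_cast hn
      nlinarith
    calc Real.sqrt (∑ i, ‖x i‖ ^ 2) ≤ Real.sqrt ((n : ℝ) ^ 2) := Real.sqrt_le_sqrt h4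
      _ = n := Real.sqrt_sq (Nat.cast_nonneg n)
  have hi : (interior (ball n V 1)).Nonempty := by
    have hopen : IsOpen {x : Euc n | ∑ i, |x i| ^ p < 1} := isOpen_lt hcS continuous_const
    refine ⟨0, mem_interior.2 ⟨_, ?_, hopen, ?_⟩⟩
    · rw [hK]
      exact fun x (hx : ∑ i, |x i| ^ p < 1) => hx.le
    · show ∑ i, |(0 : Euc n) i| ^ p < 1
      simp [Real.zero_rpow hp0.ne']
  have key := (H n V 0 1 R hn hlsc (fun t => by
    rw [hV]
    simp) hb hi hanti htr).2
  rwa [hK] at key

end Pool.Agent.Results.MP_8d00da_gt.OrderedBalls
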