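import Pool.Agent.U405.KE.Q

/-!
# KLS (Cheeger form) for bodies given by few functions with pinched Hessians

Q1, for sets `A` of measure one half, for the following convex bodies `K` and their images under affine maps
of `ℝⁿ` onto `ℝ^{n'}`, `n ≤ n' + p`:

`K = {y ∈ ℝⁿ | (S_1(y), …, S_r(y), U y) ∈ D}`

* `S_1, …, S_r ≥ 0` are functions on `ℝⁿ` with pinched Hessians: there are positive semidefinite
  quadratic forms `Q_j(z) = ‖B_j z‖²` (with only `0` as common zero) such that `S_j - Q_j / 2` and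
  `Λ Q_j / 2 - S_j` are convex, that is `D² Q_j / 2 ≤ D² S_j ≤ Λ D² Q_j / 2` (`Pinched`);
* `U` consists of `k < n` independent linear functionals;
* `D ⊂ ℝ^r × ℝ^k` is closed and convex, and `(s', u) ∈ D`, `s ≤ s'` implies `(s, u) ∈ D` (`Region`);

`K` has to be bounded, with a point `y` and `s` such that `S_j(y) < s_j` for all `j` and `(s, U y)` is an
interior point of `D`. There is no other condition: no symmetry, no product structure, no condition on
the position of the forms `Q_j` with respect to each other. The constant depends only on `Λ`, `r`, `k`, `p`.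

Examples.

* `S_j(y) = ‖B_j y - b_j‖² / 2`, `Λ = 1` (theorem `ellipsoids`): intersections of `r` ellipsoids or elliptic
  cylinders with arbitrary axes and centres, cut by `k` linear inequalities; the feasible sets of convex
  quadratic programs with `r` quadratic and `k` linear constraints; and sets like
  `{∑_j ‖B_j y - b_j‖^p ≤ 1}`, `p ≥ 2`, or `{Φ(‖B_1 y‖², …, ‖B_r y‖², U y) ≤ 1}`, `Φ` convex and nondecreasing
  in the first `r` variables.
* Microcanonical ensembles of systems with interactions: `S(y) = ∑_e V_e(y_{e'} - y_{e''}) + ∑_i W_i(y_i)`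
  on any finite graph (gradient interface models), with `a ≤ V'' ≤ Λ a` (the weights `a_e`, `a_i ≥ 0` may depend on the
  edge or vertex); `K = {S ≤ e}`, or several such energies with different weights on the same or on
  different graphs, and `k` linear conditions (total magnetisation, …). In the starting files the energies
  are sums of functions of blocks (`FewInequalities`: systems without interactions), or the
  inequality for the Gibbs densities is an assumption (`GibbsLevelSets`, and our hand-in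
  `FunctionsOfEnergies`). Here nothing is assumed.
* Restrictions of such functions to subspaces of any dimension have the same property, so all
  sections of these bodies by affine subspaces (with a strict point) are included.

For `r = 1`, `k = 0` the body `{S ≤ e}` is 2-uniformly convex, and for such bodies related results are known
(Milman and Sodin, An isoperimetric inequality for uniformly log-concave measures and uniformly convex
bodies, J. Funct. Anal. 2008; Klartag and E. Milman, On volume distribution in 2-convex bodies, Israel J. Math.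
2008). An intersection of two such bodies with different forms is not uniformly convex for
its norm, with a bound which depends on `Λ` only, and its volume may be exponentially smaller.

Method. (1) The Gibbs densities `exp (-V)`, `V = ∑ l_j S_j + ℓ`, `ℓ` linear, satisfy, with `Q = ∑ l_j Q_j`, the Poincare
inequality `Var f ≤ E Q*(∇ f)` (Brascamp-Lieb), `Q*` the dual form; and, by the Cramer-Rao inequality,
`Q*(θ) ≤ Λ Var ⟪θ, z⟫` for all `θ` (proved by comparison of the density with its translates, so no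
differentiability is used). So the Poincare constant of every linear image is at most `Λ ‖Cov‖`. (2) From
these canonical ensembles to the microcanonical ones, the uniform measures on
`{x | S_j(x, u) ≤ s_j for all j}`: supporting functional of the logarithm of the volume, a convex body over
the Gibbs density, and the theorem on large sections (starting library). (3) From the microcanonical
ensembles to `K`: our hand-in `FunctionsOfEnergies`. (4) The images, and the
passage from the concentration of all linear images to the isoperimetric inequality, are those of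
`ImagesOfSections`.
-/

set_option autoImplicit false

namespace Pool.Agent.Results.MP_8d00da_gt.PinchedEnergies

open MeasureTheory Set
open scoped ENNReal InnerProductSpace

/-- Euclidean space of dimension `n` -/
abbrev Euc (n : ℕ) : Type := EuclideanSpace ℝ (Fin n)

/-- the uniform probability measure on `K` -/
noncomputable def unif {n : ℕ} (K : Set (Euc n)) : Measure (Euc n) :=
  (volume K)⁻¹ • volume.restrict K

/-- Functions `S_1, …, S_r ≥ 0` on `ℝⁿ` with pinched Hessians: `S_j` minus the quadratic form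
`‖B_j z‖² / 2` is convex, and `Λ ‖B_j z‖² / 2` minus `S_j` is convex (for `C²` functions:
`B_jᵀ B_j ≤ D² S_j ≤ Λ B_jᵀ B_j` everywhere). The positive semidefinite forms `‖B_j z‖²` may be degenerate,
but `0` is their only common zero. -/
structure Pinched (Λ : ℝ) {r n : ℕ} (S : Fin r → Euc n → ℝ) (B : Fin r → Euc n →ₗ[ℝ] Euc n) :
    Prop where
  nonneg : ∀ j z, 0 ≤ S j z
  lower : ∀ j, ConvexOn ℝ univ fun z => S j z - ‖B j z‖ ^ 2 / 2
  upper : ∀ j, ConvexOn ℝ univ fun z => Λ / 2 * ‖B j z‖ ^ 2 - S j z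
  inj : ∀ z, (∀ j, B j z = 0) → z = 0

/-- closed convex sets which contain with `(s', u)` all `(s, u)`, `s ≤ s'` -/
structure Region {r k : ℕ} (D : Set ((Fin r → ℝ) × Euc k)) : Prop where
  closed : IsClosed D
  convex : Convex ℝ D
  down : ∀ s s' u, (s', u) ∈ D → (∀ j, s j ≤ s' j) → (s, u) ∈ D

/-- the set `{y | (S_1(y), …, S_r(y), U y) ∈ D}` -/
def body {r k n : ℕ} (S : Fin r → Euc n → ℝ) (U : Euc n →ₗ[ℝ] Euc k)
    (D : Set ((Fin r → ℝ) × Euc k)) : Set (Euc n) := {y | ((fun j => S j y), U y) ∈ D}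

/-- there are a point `y` and `s` such that `S_j(y) < s_j` and `(s, U y)` is an interior point of `D` -/
def StrictPoint {r k n : ℕ} (S : Fin r → Euc n → ℝ) (U : Euc n →ₗ[ℝ] Euc k)
    (D : Set ((Fin r → ℝ) × Euc k)) : Prop :=
  ∃ (y : Euc n) (s : Fin r → ℝ), (∀ j, S j y < s j) ∧ (s, U y) ∈ interior D

/-- Bounded sets `K = {y ∈ ℝⁿ | (S_1(y), …, S_r(y), U y) ∈ D}`, with a `StrictPoint`, for `r` functions
`S_j` with pinched Hessians and `k < n` independent linear functionals `U`. -/
def PinchedBody (Λ : ℝ) (r k : ℕ) {n : ℕ} (K : Set (Euc n)) : Prop :=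
  ∃ (U : Euc n →ₗ[ℝ] Euc k) (S : Fin r → Euc n → ℝ) (B : Fin r → Euc n →ₗ[ℝ] Euc n)
    (D : Set ((Fin r → ℝ) × Euc k)), k < n ∧ Function.Surjective U ∧ Pinched Λ S B ∧ Region D ∧
    StrictPoint S U D ∧ K = body S U D ∧ Bornology.IsBounded K

/-- Minkowski (exterior) boundary measure `μ⁺(A)` -/
noncomputable def bdry {n : ℕ} (μ : Measure (Euc n)) (A : Set (Euc n)) : ℝ≥0∞ :=
  Filter.liminf (fun ε : ℝ => (μ (Metric.thickening ε A) - μ A) / ENNReal.ofReal ε)
    (nhdsWithin 0 (Set.Ioi 0))

/-- the halfspace `⟪u, x⟫ ≤ b` -/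
def halfspace {n : ℕ} (u : Euc n) (b : ℝ) : Set (Euc n) := {x | inner ℝ u x ≤ b}

/-- the inequality of Kannan, Lovasz and Simonovits with constant `c` for the uniform measure `μ` on
`K` and sets of measure one half: if `t min(μ H, 1 - μ H) ≤ μ⁺(H)` for all halfspaces `H` then
`c t min(μ A, 1 - μ A) ≤ μ⁺(A)` for all measurable `A` with `μ A = 1/2` -/
def KLSHalf {n : ℕ} (c : ℝ) (K : Set (Euc n)) : Prop :=
  ∀ t : ℝ≥0∞, (∀ (u : Euc n) (b : ℝ), u ≠ 0 →
      t * min (unif K (halfspace u b)) (1 - unif K (halfspace u b)) ≤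
        bdry (unif K) (halfspace u b)) →
    ∀ A : Set (Euc n), MeasurableSet A → unif K A = 1 / 2 →
      ENNReal.ofReal c * t * min (unif K A) (1 - unif K A) ≤ bdry (unif K) A

theorem unif_prob {n : ℕ} {K : Set (Euc n)} (h1 : IsCompact K) (h3 : (interior K).Nonempty) :
    IsProbabilityMeasure (unif K) :=
  Pool.Agent.R754.KG.un_prob (Pool.Agent.R755.KF.vol_ne h3) h1.measure_lt_top.ne

theorem pin_of {Λ : ℝ} {r n : ℕ} {S : Fin r → Euc n → ℝ} {B : Fin r → Euc n →ₗ[ℝ] Euc n}
    (h : Pinched Λ S B) : Pool.Agent.U405.KE.Pin Λ S B :=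
  ⟨h.nonneg, h.lower, h.upper, h.inj⟩

/-- quadratic functions are pinched, `Λ = 1` -/
theorem pinched_quadratic {r n : ℕ} (B : Fin r → Euc n →ₗ[ℝ] Euc n) (b : Fin r → Euc n)
    (hB : ∀ z, (∀ j, B j z = 0) → z = 0) : Pinched 1 (fun j z => ‖B j z - b j‖ ^ 2 / 2) B := by
  have e1 : ∀ j z, ‖B j z - b j‖ ^ 2 = ‖B j z‖ ^ 2 - 2 * ⟪B j z, b j⟫_ℝ + ‖b j‖ ^ 2 := fun j z =>
    norm_sub_sq_real _ _
  have e2 : ∀ (j : Fin r) (x y : Euc n) (s t : ℝ),
      ⟪B j (s • x + t • y), b j⟫_ℝ = s * ⟪B j x, b j⟫_ℝ + t * ⟪B j y, b j⟫_ℝ := fun j x y s t => by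
    rw [map_add, map_smul, map_smul, inner_add_left, real_inner_smul_left, real_inner_smul_left]
  refine ⟨fun j z => by positivity, fun j => ⟨convex_univ, fun x _ y _ s t hs ht hst => ?_⟩,
    fun j => ⟨convex_univ, fun x _ y _ s t hs ht hst => ?_⟩, hB⟩
  · simp only [e1, e2, smul_eq_mul]
    refine le_of_eq ?_
    have h1 : t = 1 - s := by linarith
    rw [h1]
    ring
  · simp only [e1, e2, smul_eq_mul]
    refine le_of_eq ?_
    have h1 : t = 1 - s := by linarith
    rw [h1]
    ring

/-- Intersections of `r` ellipsoids or elliptic cylinders `‖B_j y - b_j‖² ≤ ρ_j` with arbitrary centres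
and axes, and with constraints `U y ∈ C` for `k` linear functionals: feasible sets of convex
quadratic programs with few constraints. -/
theorem ellipsoids {r k n : ℕ} (B : Fin r → Euc n →ₗ[ℝ] Euc n) (b : Fin r → Euc n)
    (ρ : Fin r → ℝ) (U : Euc n →ₗ[ℝ] Euc k) (C : Set (Euc k)) (hk : k < n)
    (hU : Function.Surjective U) (hB : ∀ z, (∀ j, B j z = 0) → z = 0) (hC : IsClosed C)
    (hC' : Convex ℝ C) (hx : ∃ y, (∀ j, ‖B j y - b j‖ ^ 2 < ρ j) ∧ U y ∈ interior C) :
    PinchedBody 1 r k {y | (∀ j, ‖B j y - b j‖ ^ 2 ≤ ρ j) ∧ U y ∈ C} := by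
  have hP := pinched_quadratic B b hB
  have hK : {y | (∀ j, ‖B j y - b j‖ ^ 2 ≤ ρ j) ∧ U y ∈ C} =
      body (fun j z => ‖B j z - b j‖ ^ 2 / 2) U
        ({s : Fin r → ℝ | ∀ j, s j ≤ ρ j / 2} ×ˢ C) := by
    ext y
    simp only [body, Set.mem_ofPred_eq, Set.mem_prod]
    refine and_congr_left fun _ => forall_congr' fun j => ?_
    constructor <;> intro h <;> linarith
  have hcl : IsClosed {s : Fin r → ℝ | ∀ j, s j ≤ ρ j / 2} := by
    have e1 : {s : Fin r → ℝ | ∀ j, s j ≤ ρ j / 2} = Set.Iic fun j => ρ j / 2 := by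
      ext s
      simp [Pi.le_def]
    rw [e1]
    exact isClosed_Iic
  have hcv : Convex ℝ {s : Fin r → ℝ | ∀ j, s j ≤ ρ j / 2} := by
    have e1 : {s : Fin r → ℝ | ∀ j, s j ≤ ρ j / 2} = Set.Iic fun j => ρ j / 2 := by
      ext s
      simp [Pi.le_def]
    rw [e1]
    exact convex_Iic _
  refine ⟨U, _, B, _, hk, hU, hP, ⟨hcl.prod hC, hcv.prod hC', ?_⟩, ?_, hK, ?_⟩
  · rintro s s' u ⟨h1, h2⟩ h3
    exact ⟨fun j => (h3 j).trans (h1 j), h2⟩
  · obtain ⟨y, h1, h2⟩ := hx
    refine ⟨y, fun j => (‖B j y - b j‖ ^ 2 / 2 + ρ j / 2) / 2, fun j => ?_, ?_⟩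
    · have := h1 j
      change ‖B j y - b j‖ ^ 2 / 2 < _
      linarith
    · rw [interior_prod_eq]
      refine ⟨?_, h2⟩
      refine interior_maximal (s := {s : Fin r → ℝ | ∀ j, s j ≤ ρ j / 2})
        (t := {s : Fin r → ℝ | ∀ j, s j < ρ j / 2}) (fun s hs j => (hs j).le) ?_ fun j => ?_
      · have e1 : {s : Fin r → ℝ | ∀ j, s j < ρ j / 2} =
            ⋂ j, {s : Fin r → ℝ | s j < ρ j / 2} := by
          ext s
          simp
        rw [e1]
        exact isOpen_iInter_of_finite fun j => isOpen_lt (continuous_apply j) continuous_const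
      · have := h1 j
        change (‖B j y - b j‖ ^ 2 / 2 + ρ j / 2) / 2 < ρ j / 2
        linarith
  · refine ((pin_of hP).en.bdd fun j => ρ j / 2).subset fun y hy j => ?_
    have h1 : ‖B j y - b j‖ ^ 2 ≤ ρ j := hy.1 j
    change ‖B j y - b j‖ ^ 2 / 2 ≤ ρ j / 2
    linarith

theorem affine_eq {m n : ℕ} (T : Euc m →ᵃ[ℝ] Euc n) (K : Set (Euc m)) :
    T '' K = (fun x => T 0 + T.linear x) '' K := by
  refine image_congr fun x _ => ?_
  have h := T.map_vadd 0 x
  rw [vadd_eq_add, add_zero] at h
  rw [h, vadd_eq_add, add_comm]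

theorem star_of (Λ : ℝ) (hΛ : 1 ≤ Λ) (r k p : ℕ) : ∃ c : ℝ, 0 < c ∧ ∀ (n n' : ℕ)
    (K : Set (Euc n)) (T : Euc n →ᵃ[ℝ] Euc n'), PinchedBody Λ r k K → n ≤ n' + p →
    Function.Surjective T → IsCompact (T '' K) ∧ Convex ℝ (T '' K) ∧
    (interior (T '' K)).Nonempty ∧ Pool.Agent.Y506.RG.Star c (Pool.Agent.Y506.PV.ind (T '' K)) := by
  obtain ⟨A', H⟩ := Pool.Agent.U405.KE.pin_body Λ (by linarith) r k
  obtain ⟨c, hc, Hc⟩ := Pool.Agent.U405.KE.img_star A' p
  refine ⟨c, hc, ?_⟩
  rintro n n' K T ⟨U, S, B, D, hk, hU, hS, hD, hnd, hK, hb⟩ hn hT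
  rw [hK] at hb
  obtain ⟨k1, k2, k3, k4⟩ := H n U S B D hk hU (pin_of hS) hD.closed hD.convex hD.down hb hnd
  have h5 := Hc n n' _ T.linear (T 0) k1 k2 k3 k4 hn (by rwa [AffineMap.linear_surjective_iff])
  rw [← affine_eq] at h5
  rw [hK]
  exact h5

/-- from the functional inequality to sets of measure one half -/
theorem half_of : ∀ c : ℝ, 0 < c → ∃ c' : ℝ, 0 < c' ∧ ∀ (n : ℕ) (K : Set (Euc n)), IsCompact K →
    Convex ℝ K → (interior K).Nonempty →
    Pool.Agent.Y506.RG.Star c (Pool.Agent.Y506.PV.ind K) → KLSHalf c' K := by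
  intro c hc
  obtain ⟨c', hc', H'⟩ := Pool.Agent.Y532.PV.che c hc
  refine ⟨c', hc', fun n K h1 h2 h3 h4 => ?_⟩
  intro t ht A hA hA2
  have hprob : IsProbabilityMeasure (unif K) :=
    Pool.Agent.Y506.KS.unif_prob (Pool.Agent.Y506.PV.vol_pos h3) h1.measure_lt_top.ne
  have key := H' n _ h1 h2 h3 h4 (unif K) rfl t ht A hA2
  refine le_trans ?_ key
  calc ENNReal.ofReal c' * t * min (unif K A) (1 - unif K A)
      ≤ ENNReal.ofReal c' * t * 1 := mul_le_mul_right ((min_le_left _ _).trans prob_le_one) _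
    _ = _ := mul_one _

/-- **KLS (Cheeger form) for bodies given by few functions with pinched Hessians.** For all `Λ ≥ 1` and
`r, k, p` there is a constant `c > 0` such that for all bodies `K = {y | (S(y), U y) ∈ D} ⊂ ℝⁿ` of the
class `PinchedBody Λ r k` and all affine maps `T` of `ℝⁿ` onto `ℝ^{n'}`, `n ≤ n' + p`, the convex body `T K`
satisfies the inequality of Kannan, Lovasz and Simonovits with constant `c` for all sets of measure
one half. -/
theorem result : ∀ (Λ : ℝ) (r k p : ℕ), 1 ≤ Λ → ∃ c : ℝ, 0 < c ∧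
    ∀ (n n' : ℕ) (K : Set (Euc n)) (T : Euc n →ᵃ[ℝ] Euc n'), PinchedBody Λ r k K →
    n ≤ n' + p → Function.Surjective T → KLSHalf c (T '' K) := by
  intro Λ r k p hΛ
  obtain ⟨c, hc, H⟩ := star_of Λ hΛ r k p
  obtain ⟨c', hc', H'⟩ := half_of c hc
  refine ⟨c', hc', fun n n' K T hK hn hT => ?_⟩
  obtain ⟨h1, h2, h3, h4⟩ := H n n' K T hK hn hT
  exact H' n' _ h1 h2 h3 h4

end Pool.Agent.Results.MP_8d00da_gt.PinchedEnergies
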