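import Pool.Agent.U18.UB.Res2
import Pool.Agent.Y532.PV.Che

/-!
# KLS (Cheeger form) for unconditional sums of many bodies

Q1, for sets `A` of measure one half, for the unit balls

`K = {x | (N_1(x_1), …, N_b(x_b)) ∈ D}`

of the unconditional sums of ARBITRARILY MANY normed spaces `(ℝ^{m_i}, N_i)`, where `D ⊂ ℝ^b` is any
unconditional convex body and `x ↦ (x_1, …, x_b)` is a linear bijection of `ℝⁿ` onto `∏ ℝ^{m_i}`. The
hypothesis on the norms is that each unit ball satisfies the Poincare inequality with constant `c₀` in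
isotropic position, and that the blocks are not too small compared with the number of blocks:
`(1 + log b)² ≤ T m_i`; if the isotropic unit ball of `N_i` is contained in the Euclidean ball of radius
`T √m_i` (for instance if `N_i` is Euclidean) then `1 + log b ≤ T m_i` is enough. The constant depends on
`c₀` and `T` only: not on `b`, on the dimensions, on the norms or on `D` (theorem `bodies`). There is no
condition on `D`, no symmetry between the blocks, and `D` need not be given by a sum. Theorem `result`: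
the same for the images of `K` under affine maps with kernels of dimension at most `r`, with a
constant which depends on `r` as well.

The norms `N_i` can be any of the invariant norms on vectors and matrices for which the inequality is
known (`Admissible`): theorem `norms`. For instance, for all `b`, all `p_i ∈ [1, ∞]` and all dimensions
`m_i ≥ (1 + log b)²`, all convex bodies in `∏ ℝ^{m_i}` whose membership relation is an unconditional
condition on the `ℓ_{p_i}` norms (or Schatten norms) of the blocks.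

All the bodies satisfy weak Poincare inequalities for their linear images (theorem `weakPoincare`),
with a function which depends on `c₀` and `T` only, so that they can be used as the base bodies of the
class `Centred` of the starting file `CentredFibrations` (images and lifts with kernels of bounded
dimension, fibrations, centred fibrations), and KLS holds for the bodies obtained from them in this way.

Starting results: `CompositeBodies` has sums of `b ≤ s` bodies, with a constant which depends on `s`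
(used here when `b` is bounded), `RadialBlocks` Euclidean norms `N_i`.

Method. (1) Polar coordinates in the blocks: a uniform point of `K` is `(t_i u_i)_i` with `u_i` on the
unit sphere of `N_i` with the cone measure, all independent, and `t` independent of `u` with density
proportional to `∏ t_i^{m_i - 1}` on `D ∩ ℝ₊^b`. (2) Let `f` be a smooth function on `K`, `|f| ≤ 1`, with
small gradient. Given `u`, the Brascamp-Lieb inequality for `t` (the potential is
`-∑ (m_i - 1) log t_i`, on the part `t_i ≤ T_i` of `D`) bounds the variance of `f` by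
`E ∑ T_i² / (m_i - 1) (∂_{t_i} f)²`, where `∂_{t_i} f = ⟪∇_i f, u_i⟫` and `|u_i| = O(√m_i)` for isotropic unit
balls, with large probability. (3) Given the others, the block `x_i` is uniform on a multiple of the
unit ball of `N_i`; the Poincare inequality of this ball bounds the mean of the variance in the
block `i` by `E c₀ T_i² |∇_i f|²`. The Efron-Stein inequality in the variables `u` is applied to the
difference of `f` and its conditional means given the other blocks: so no independence of the blocks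
is used. (4) Both bounds have the factor `T_i² |∇_i f|²`, with `T_i` at most a multiple of the median of
`t_i`. `t_i` exceeds this with probability at most `ε / b`: for the law of `t_i`, whose density is
`t^{m_i - 1}` times a decreasing log-concave function, by the Prekopa-Leindler inequality; and
`|u_i| ≥ R √m_i` has probability at most `ε / b` because of the exponential concentration of the norm
(Poincare inequality) and `(1 + log b)² ≤ T m_i`. (5) `K` is symmetric in each block, so that the
covariance is block diagonal with blocks `(1 + 2 / m_i) E t_i²` times the identity, and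
`f = v ∘ P` for a linear image `P K` with covariance at most `s` has `E ∑ T_i² |∇_i f|² ≤ C s E |∇ v|²`.
(6) So all Lipschitz functions with small constants on the images have small variance on the scale
given by the covariance, and the theorems of the starting files (modules `Y506.PV`, `R755.KS`) give
the isoperimetric inequality for sets of measure one half and the weak Poincare inequalities.

Formalised by helpers 18, 27, 67, 111, 186, 312, 433, 810 and 818 with the starting library.
-/

set_option autoImplicit false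

namespace Pool.Agent.Results.MP_8d00da_gt.UnconditionalSums

open MeasureTheory Set
open scoped ENNReal InnerProductSpace

/-- Euclidean space of dimension `n` -/
abbrev Euc (n : ℕ) : Type := EuclideanSpace ℝ (Fin n)

/-- norms -/
structure IsNorm {k : ℕ} (N : Euc k → ℝ) : Prop where
  add_le : ∀ x y, N (x + y) ≤ N x + N y
  smul : ∀ (r : ℝ) (x : Euc k), N (r • x) = |r| * N x
  pos : ∀ x, x ≠ 0 → 0 < N x

/-- the unit ball of `N` -/
def unitBall {k : ℕ} (N : Euc k → ℝ) : Set (Euc k) := {x | N x ≤ 1}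

/-- the uniform probability measure on `K` -/
noncomputable def unif {m : ℕ} (K : Set (Euc m)) : Measure (Euc m) :=
  (volume K)⁻¹ • volume.restrict K

/-- the image of the unit ball of `N` under `A` is isotropic (all variances in directions of length
one are equal to one) and has the Poincare constant `c₀` -/
structure IsotropicPoincare (c₀ : ℝ) {k : ℕ} (N : Euc k → ℝ) (A : Euc k ≃ₗ[ℝ] Euc k) : Prop where
  isotropic : ∀ θ : Euc k,
    ProbabilityTheory.variance (fun x => ⟪A x, θ⟫_ℝ) (unif (unitBall N)) = ‖θ‖ ^ 2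
  poincare : ∀ f : Euc k → ℝ, ContDiff ℝ 1 f →
    ProbabilityTheory.variance (fun x => f (A x)) (unif (unitBall N)) ≤
      c₀ * ∫ x, ‖fderiv ℝ f (A x)‖ ^ 2 ∂(unif (unitBall N))

/-- The blocks: norms `N` on `ℝ^k`, `k ≥ 1`, whose unit ball satisfies the Poincare inequality with
constant `c₀` in isotropic position, with `(1 + log b)² ≤ T k`, `b` the number of blocks; only
`1 + log b ≤ T k` is required if the isotropic unit ball is contained in the Euclidean ball of radius
`T √k`. -/
structure Block (c₀ T : ℝ) (b : ℕ) {k : ℕ} (N : Euc k → ℝ) : Prop where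
  dim : 1 ≤ k
  norm : IsNorm N
  ineq : ∃ A : Euc k ≃ₗ[ℝ] Euc k, IsotropicPoincare c₀ N A ∧
    ((1 + Real.log b) ^ 2 ≤ T * k ∨
      (1 + Real.log b ≤ T * k ∧ ∀ x ∈ unitBall N, ‖A x‖ ≤ T * Real.sqrt k))

/-- unconditional convex bodies `D ⊂ ℝ^b` -/
structure Unconditional {b : ℕ} (D : Set (Euc b)) : Prop where
  comp : IsCompact D
  conv : Convex ℝ D
  int : (interior D).Nonempty
  unc : ∀ t ∈ D, ∀ s : Euc b, (∀ i, |s i| ≤ |t i|) → s ∈ D

/-- the unconditional sum `{x | (N_1(x_1), …, N_b(x_b)) ∈ D}`, where `x ↦ (x_1, …, x_b)` is a linear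
bijection `L` of `ℝⁿ` onto `∏ ℝ^{m_i}`: the unit ball of the `D`-sum of the normed spaces -/
def sumBody {b n : ℕ} {m : Fin b → ℕ} (L : Euc n ≃ₗ[ℝ] (∀ i, Euc (m i)))
    (N : ∀ i, Euc (m i) → ℝ) (D : Set (Euc b)) : Set (Euc n) :=
  {x | WithLp.toLp 2 (fun i => N i (L x i)) ∈ D}

/-- Minkowski (exterior) boundary measure `μ⁺(A)` -/
noncomputable def bdry {n : ℕ} (μ : Measure (Euc n)) (A : Set (Euc n)) : ℝ≥0∞ :=
  Filter.liminf (fun ε : ℝ => (μ (Metric.thickening ε A) - μ A) / ENNReal.ofReal ε)
    (nhdsWithin 0 (Set.Ioi 0))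

/-- the halfspace `⟪u, x⟫ ≤ b` -/
def halfspace {n : ℕ} (u : Euc n) (b : ℝ) : Set (Euc n) := {x | inner ℝ u x ≤ b}

/-- the inequality of Kannan, Lovasz and Simonovits with constant `c` for the uniform measure `μ` on
`K` and sets of measure one half: if `t min(μ H, 1 - μ H) ≤ μ⁺(H)` for all halfspaces `H` then
`c t min(μ A, 1 - μ A) ≤ μ⁺(A)` for all measurable `A` with `μ A = 1/2` -/
def KLSHalf {n : ℕ} (c : ℝ) (K : Set (Euc n)) : Prop :=
  ∀ t : ℝ≥0∞, (∀ (u : Euc n) (b : ℝ), u ≠ 0 →
      t * min (unif K (halfspace u b)) (1 - unif K (halfspace u b)) ≤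
        bdry (unif K) (halfspace u b)) →
    ∀ A : Set (Euc n), MeasurableSet A → unif K A = 1 / 2 →
      ENNReal.ofReal c * t * min (unif K A) (1 - unif K A) ≤ bdry (unif K) A

theorem nrm_of {k : ℕ} {N : Euc k → ℝ} (h : IsNorm N) : Pool.Agent.U18.UB.Nrm N :=
  ⟨h.add_le, h.smul, h.pos⟩

theorem blk_of {c₀ T : ℝ} {b k : ℕ} {N : Euc k → ℝ} (h : Block c₀ T b N) :
    Pool.Agent.U18.UB.BlkP c₀ T b N := by
  obtain ⟨A, h1, h2⟩ := h.ineq
  exact Pool.Agent.U18.UB.blkP_of (nrm_of h.norm) h1.isotropic h1.poincare h2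

theorem sm_of {c₀ T : ℝ} {b n : ℕ} {m : Fin b → ℕ} {L : Euc n ≃ₗ[ℝ] (∀ i, Euc (m i))}
    {N : ∀ i, Euc (m i) → ℝ} {D : Set (Euc b)} (hN : ∀ i, Block c₀ T b (N i))
    (hD : Unconditional D) : Pool.Agent.U18.UB.Sm c₀ T n (sumBody L N D) :=
  ⟨⟨b, m, L, N, Pool.Agent.U18.UB.dfun D, fun i => (hN i).dim, fun i => nrm_of (hN i).norm,
    fun i => blk_of (hN i), Pool.Agent.U18.UB.dfun_ubd hD.comp hD.conv hD.int hD.unc,
    Pool.Agent.U18.UB.sb_eq L N D⟩⟩

/-- images under affine maps with kernels of dimension at most `r` -/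
theorem kls_of (c₀ T : ℝ) (hc₀ : 0 < c₀) (hT : 0 < T) (r : ℕ) : ∃ c : ℝ, 0 < c ∧
    ∀ (n n' : ℕ) (K : Set (Euc n)) (P : Euc n →ᵃ[ℝ] Euc n'), Pool.Agent.U18.UB.Sm c₀ T n K →
    n ≤ n' + r → Function.Surjective P → KLSHalf c (P '' K) := by
  obtain ⟨c, hc, H⟩ := Pool.Agent.U18.UB.Sm.img c₀ T hc₀ hT r
  obtain ⟨c', hc', H'⟩ := Pool.Agent.Y532.PV.che c hc
  refine ⟨c', hc', fun n n' K P hK hn hP => ?_⟩
  have hPL : ∀ x, P x = P 0 + P.linear x := fun x => by
    have h := P.map_vadd 0 x
    rw [vadd_eq_add, add_zero] at h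
    rw [h, vadd_eq_add, add_comm]
  have hA : Function.Surjective P.linear := by
    rwa [AffineMap.linear_surjective_iff]
  have he : P '' K = (fun x => P 0 + P.linear x) '' K := image_congr fun x _ => hPL x
  rw [he]
  obtain ⟨h1, h2, h3, h4⟩ := H n n' K P.linear (P 0) hK hn hA
  generalize (fun x => P 0 + P.linear x) '' K = K' at *
  intro t ht A hA hA2
  have hprob : IsProbabilityMeasure (unif K') :=
    Pool.Agent.Y506.KS.unif_prob (Pool.Agent.Y506.PV.vol_pos h3) h1.measure_lt_top.ne
  have key := H' n' K' h1 h2 h3 h4 (unif K') rfl t ht A hA2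
  refine le_trans ?_ key
  calc ENNReal.ofReal c' * t * min (unif K' A) (1 - unif K' A)
      ≤ ENNReal.ofReal c' * t * 1 := mul_le_mul_right ((min_le_left _ _).trans prob_le_one) _
    _ = _ := mul_one _

/-- **KLS (Cheeger form) for unconditional sums of many bodies.** For all `c₀, T > 0` and `r` there is a
constant `c > 0` such that, for all numbers `b` of blocks, all dimensions, all norms `N_1, …, N_b` whose
unit balls satisfy the Poincare inequality with constant `c₀` in isotropic position, on spaces of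
dimensions at least `(1 + log b)² / T`, all unconditional convex bodies `D ⊂ ℝ^b` and all linear
bijections `x ↦ (x_1, …, x_b)` of `ℝⁿ` onto the product, the body `{x | (N_1(x_1), …, N_b(x_b)) ∈ D}` and
its images under the affine maps of `ℝⁿ` onto `ℝ^{n'}`, `n ≤ n' + r`, satisfy the inequality of Kannan,
Lovasz and Simonovits with constant `c` for all sets of measure one half. (The weaker condition on the
dimensions in `Block` is used if the isotropic unit ball is contained in the Euclidean ball of radius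
`T √k`.) -/
theorem result : ∀ (c₀ T : ℝ) (r : ℕ), 0 < c₀ → 0 < T → ∃ c : ℝ, 0 < c ∧ ∀ (b n n' : ℕ)
    (m : Fin b → ℕ) (L : Euc n ≃ₗ[ℝ] (∀ i, Euc (m i))) (N : ∀ i, Euc (m i) → ℝ) (D : Set (Euc b))
    (P : Euc n →ᵃ[ℝ] Euc n'), (∀ i, Block c₀ T b (N i)) → Unconditional D → n ≤ n' + r →
    Function.Surjective P → KLSHalf c (P '' sumBody L N D) := by
  intro c₀ T r hc₀ hT
  obtain ⟨c, hc, H⟩ := kls_of c₀ T hc₀ hT r
  exact ⟨c, hc, fun b n n' m L N D P hN hD hn hP => H n n' _ P (sm_of hN hD) hn hP⟩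

/-- the case `P = id` -/
theorem bodies : ∀ c₀ T : ℝ, 0 < c₀ → 0 < T → ∃ c : ℝ, 0 < c ∧ ∀ (b n : ℕ) (m : Fin b → ℕ)
    (L : Euc n ≃ₗ[ℝ] (∀ i, Euc (m i))) (N : ∀ i, Euc (m i) → ℝ) (D : Set (Euc b)),
    (∀ i, Block c₀ T b (N i)) → Unconditional D → KLSHalf c (sumBody L N D) := by
  intro c₀ T hc₀ hT
  obtain ⟨c, hc, H⟩ := result c₀ T 0 hc₀ hT
  refine ⟨c, hc, fun b n m L N D hN hD => ?_⟩
  have h := H b n n m L N D (AffineMap.id ℝ (Euc n)) hN hD (by omega) Function.surjective_id
  simpa using h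

/-- convex bodies -/
structure Body {n : ℕ} (K : Set (Euc n)) : Prop where
  comp : IsCompact K
  conv : Convex ℝ K
  int : (interior K).Nonempty

/-- The inequalities `Var v(P x) ≤ δ + A(δ) s E ‖∇ v(P x)‖²` for all `δ > 0`, all linear images `P x` of
`x` (of law `μ`), all bounds `s` for the variances of the marginals of `P x` in directions of length
one, and all `C¹` functions `v` with `|v| ≤ 1` and bounded gradient. -/
def WeakPoincare (A : ℝ → ℝ) {M : ℕ} (μ : Measure (Euc M)) : Prop :=
  ∀ δ : ℝ, 0 < δ → ∀ (k : ℕ) (P : Euc M →ₗ[ℝ] Euc k) (s : ℝ), 0 < s →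
  (∀ θ : Euc k, ‖θ‖ = 1 → ProbabilityTheory.variance (fun x => ⟪P x, θ⟫_ℝ) μ ≤ s) →
  ∀ (v : Euc k → ℝ) (C : ℝ), ContDiff ℝ 1 v → (∀ y, |v y| ≤ 1) → (∀ y, ‖fderiv ℝ v y‖ ≤ C) →
  ProbabilityTheory.variance (fun x => v (P x)) μ ≤ δ + A δ * s * ∫ x, ‖fderiv ℝ v (P x)‖ ^ 2 ∂μ

/-- **Weak Poincare inequalities** for the unconditional sums and all their linear images, with a
function `A` which depends on `c₀` and `T` only -/
theorem weakPoincare : ∀ c₀ T : ℝ, 0 < c₀ → 0 < T → ∃ A : ℝ → ℝ, ∀ (b n : ℕ) (m : Fin b → ℕ)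
    (L : Euc n ≃ₗ[ℝ] (∀ i, Euc (m i))) (N : ∀ i, Euc (m i) → ℝ) (D : Set (Euc b)),
    (∀ i, Block c₀ T b (N i)) → Unconditional D →
    Body (sumBody L N D) ∧ WeakPoincare A (unif (sumBody L N D)) := by
  intro c₀ T hc₀ hT
  obtain ⟨A, H⟩ := Pool.Agent.U18.UB.Sm.wp c₀ T hc₀ hT
  refine ⟨A, fun b n m L N D hN hD => ?_⟩
  have hs := sm_of (L := L) hN hD
  obtain ⟨h1, h2, h3, -⟩ := hs.body
  exact ⟨⟨h1, h2, h3⟩, H n _ hs⟩

/-! ### invariant norms on vectors and matrices -/

/-- `N` does not change when coordinates are permuted or change their signs -/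
def OneSymmetric {k : ℕ} (N : Euc k → ℝ) : Prop :=
  ∀ σ : Equiv.Perm (Fin k), ∀ x y : Euc k, (∀ i, |y i| = |x (σ i)|) → N y = N x

/-- norms on the Euclidean spaces with the coordinates `ι` -/
structure NormOn {ι : Type} [Fintype ι] (N : EuclideanSpace ℝ ι → ℝ) : Prop where
  add_le : ∀ x y, N (x + y) ≤ N x + N y
  smul : ∀ (r : ℝ) (x : EuclideanSpace ℝ ι), N (r • x) = |r| * N x
  pos : ∀ x, x ≠ 0 → 0 < N x

/-- real `m × l` matrices, with the Euclidean structure of `ℝ^(ml)` -/
abbrev Mat (m l : ℕ) : Type := EuclideanSpace ℝ (Fin m × Fin l)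

/-- `N (g X) = N X` for all orthogonal matrices `g` -/
def LeftInvariant {m l : ℕ} (N : Mat m l → ℝ) : Prop :=
  ∀ g ∈ Matrix.orthogonalGroup (Fin m) ℝ, ∀ X : Mat m l,
    N (WithLp.toLp 2 fun p => ∑ k, g p.1 k * X (k, p.2)) = N X

/-- `Φ` is a linear isometric parametrisation of the Hermitian `D × D` matrices over `𝕜` (`ℝ` or `ℂ`),
with the Hilbert-Schmidt norm, by `ℝ^ι` -/
structure HermFrame {𝕜 : Type} [RCLike 𝕜] {D : ℕ} {ι : Type} [Fintype ι]
    (Φ : EuclideanSpace ℝ ι →ₗ[ℝ] Matrix (Fin D) (Fin D) 𝕜) : Prop where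
  herm : ∀ x, (Φ x).conjTranspose = Φ x
  surj : ∀ A : Matrix (Fin D) (Fin D) 𝕜, A.conjTranspose = A → ∃ x, Φ x = A
  iso : ∀ x, ∑ i, ∑ j, ‖Φ x i j‖ ^ 2 = ‖x‖ ^ 2

/-- `N` does not change when the matrix `Φ x` is conjugated by a unitary matrix -/
def ConjInvariant {𝕜 : Type} [RCLike 𝕜] {D : ℕ} {ι : Type} [Fintype ι]
    (Φ : EuclideanSpace ℝ ι →ₗ[ℝ] Matrix (Fin D) (Fin D) 𝕜) (N : EuclideanSpace ℝ ι → ℝ) : Prop :=
  ∀ U ∈ Matrix.unitaryGroup (Fin D) 𝕜, ∀ x y : EuclideanSpace ℝ ι,
    Φ y = U * Φ x * U.conjTranspose → N y = N x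

/-- The norms on `ℝ^k` which are admitted: 1-symmetric norms, and, in any linear coordinates, left
invariant norms on `m × l` matrices, `1 ≤ l ≤ m`, `3 ≤ m`, and conjugation invariant norms on Hermitian
matrices of order at least 3. -/
inductive Admissible : ∀ k : ℕ, (Euc k → ℝ) → Prop
  | oneSymmetric (k : ℕ) (N : Euc k → ℝ) : 1 ≤ k → IsNorm N → OneSymmetric N → Admissible k N
  | matrices (m l k : ℕ) (e : Mat m l ≃ₗ[ℝ] Euc k) (N : Mat m l → ℝ) : 3 ≤ m → 1 ≤ l → l ≤ m →
      NormOn N → LeftInvariant N → Admissible k fun z => N (e.symm z)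
  | hermitian (𝕜 : Type) [RCLike 𝕜] (D : ℕ) (ι : Type) [Fintype ι]
      (Φ : EuclideanSpace ℝ ι →ₗ[ℝ] Matrix (Fin D) (Fin D) 𝕜) (k : ℕ)
      (e : EuclideanSpace ℝ ι ≃ₗ[ℝ] Euc k) (N : EuclideanSpace ℝ ι → ℝ) : 3 ≤ D → HermFrame Φ →
      NormOn N → ConjInvariant Φ N → Admissible k fun z => N (e.symm z)

theorem an_of {k : ℕ} {N : Euc k → ℝ} (h : Admissible k N) : Pool.Agent.R751.MB.AN k N := by
  cases h with
  | oneSymmetric _ _ hk hN hinv => exact .sym _ _ hk ⟨hN.add_le, hN.smul, hN.pos⟩ hinv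
  | matrices m l _ e N hm hl hlm hN hinv =>
    exact .mat m l k e N hm hl hlm ⟨hN.add_le, hN.smul, hN.pos⟩ hinv
  | hermitian 𝕜 D ι Φ _ e N hD hΦ hN hinv =>
    exact .her 𝕜 D ι Φ k e N hD ⟨hΦ.herm, hΦ.surj, hΦ.iso⟩ ⟨hN.add_le, hN.smul, hN.pos⟩ hinv

/-- **Unconditional sums of many invariant norms.** For every `T > 0` there is a constant `c > 0` such
that for all `b`, all admissible norms `N_1, …, N_b` (different from each other) on spaces of dimensions
at least `(1 + log b)² / T` and all unconditional convex bodies `D ⊂ ℝ^b` the body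
`{x | (N_1(x_1), …, N_b(x_b)) ∈ D}` satisfies the inequality. -/
theorem norms : ∀ T : ℝ, 0 < T → ∃ c : ℝ, 0 < c ∧ ∀ (b n : ℕ) (m : Fin b → ℕ)
    (L : Euc n ≃ₗ[ℝ] (∀ i, Euc (m i))) (N : ∀ i, Euc (m i) → ℝ) (D : Set (Euc b)),
    (∀ i, Admissible (m i) (N i)) → (∀ i, (1 + Real.log b) ^ 2 ≤ T * m i) → Unconditional D →
    KLSHalf c (sumBody L N D) := by
  intro T hT
  obtain ⟨c₀, hc₀, H0⟩ := Pool.Agent.U18.UB.adm
  obtain ⟨c, hc, H⟩ := kls_of c₀ T hc₀ hT 0
  refine ⟨c, hc, fun b n m L N D hN hm hD => ?_⟩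
  have hs : Pool.Agent.U18.UB.Sm c₀ T n (sumBody L N D) :=
    ⟨⟨b, m, L, N, Pool.Agent.U18.UB.dfun D,
      fun i => (H0 T b (m i) (N i) (an_of (hN i)) (hm i)).1,
      fun i => (H0 T b (m i) (N i) (an_of (hN i)) (hm i)).2.1,
      fun i => (H0 T b (m i) (N i) (an_of (hN i)) (hm i)).2.2,
      Pool.Agent.U18.UB.dfun_ubd hD.comp hD.conv hD.int hD.unc,
      Pool.Agent.U18.UB.sb_eq L N D⟩⟩
  have h := H n n _ (AffineMap.id ℝ (Euc n)) hs (by omega) Function.surjective_id
  simpa using h

end Pool.Agent.Results.MP_8d00da_gt.UnconditionalSums
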